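import Mathlib

set_option autoImplicit false

open Set Filter Topology

namespace Pool.Agent.Results.MP_abc717_gt.Counter

theorem result : ∃ (I : Type) (K : Set (I → ℝ)), IsCompact K ∧ (∀ x ∈ K, ∀ i, x i ∈ Icc (-1 : ℝ) 1) ∧
    K ⊆ closure (K ∩ {x | {i | x i ≠ 0}.Countable}) ∧
    (∃ (Γ : Type) (h : K → Γ → ℝ), IsEmbedding h ∧ (∀ x γ, h x γ ∈ Icc (0 : ℝ) 1) ∧
      range h ⊆ closure (range h ∩ {y | ∀ ε > 0, {γ | ε < |y γ|}.Finite})) ∧
    ∀ D ⊆ K ∩ {x | {i | x i ≠ 0}.Countable}, K ⊆ closure D → ∃ ε > 0, ∀ J : ℕ → Set I,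
      ⋃ n, J n = univ → ∃ n, ∃ x ∈ D, {i ∈ J n | ε < |x i|}.Infinite := by
  classical
  let K : Set ((ℕ → ℝ) ⊕ ℝ → ℝ) := {x | (∀ i, x i ∈ ({0, 1} : Set ℝ)) ∧
    ∀ t n, x (.inl t) = 0 ∨ x (.inr (t n)) = 1}
  have k : ∀ {I : Type} {x : I → ℝ} {A : Set (I → ℝ)}, (∀ S : Set I, S.Finite → ∃ y ∈ A,
      ∀ i ∈ S, y i = x i) → x ∈ closure A := fun h => mem_closure_iff_nhds.2 fun U hU => by
    rw [nhds_pi, Filter.mem_pi] at hU
    obtain ⟨S, s1, t, t1, t2⟩ := hU
    obtain ⟨y, y1, y2⟩ := h S s1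
    exact ⟨y, t2 fun j hj => y2 j hj ▸ mem_of_mem_nhds (t1 j), y1⟩
  let T : ((ℕ → ℝ) ⊕ ℝ → ℝ) → (ℕ → ℝ) ⊕ ℝ → ℝ := fun x =>
    Sum.elim (fun t => x (.inl t)) fun r => 1 - x (.inr r)
  have t1 : Continuous T := continuous_pi <| by
    rintro (t | r)
    exacts [continuous_apply _, continuous_const.sub (continuous_apply _)]
  have t2 : ∀ x, T (T x) = x := fun x => funext <| by rintro (t | r) <;> simp [T]
  refine ⟨_, K, (isCompact_univ_pi fun _ => (toFinite ({0, 1} : Set ℝ)).isCompact).of_isClosed_subset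
    ?_ fun x hx i _ => hx.1 i, fun x hx i => ?_, fun x hx => k fun S hS => ?_, ⟨_, fun x => T x.1,
      (Function.LeftInverse.isEmbedding t2 t1 t1).comp .subtypeVal, fun x i => ?_, ?_⟩,
        fun D hD d => ⟨1 / 2, by norm_num, fun J hJ => ?_⟩⟩
  · simp only [K, ofPred_and, ofPred_forall, ofPred_or]
    exact (isClosed_iInter fun i => (toFinite ({0, 1} : Set ℝ)).isClosed.preimage
      (continuous_apply i)).inter (isClosed_iInter fun t => isClosed_iInter fun n =>
        (isClosed_eq (continuous_apply _) continuous_const).union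
          (isClosed_eq (continuous_apply _) continuous_const))
  · rcases hx.1 i with e | e <;> rw [e] <;> norm_num
  · let A : Set ((ℕ → ℝ) ⊕ ℝ) := S ∪ ⋃ t ∈ Sum.inl ⁻¹' S, range fun n => .inr (t n)
    refine ⟨A.indicator x, ⟨⟨fun i => ?_, fun t n => ?_⟩, .mono support_indicator_subset
      (hS.countable.union ((hS.countable.preimage_of_injOn Sum.inl_injective.injOn).biUnion
        fun _ _ => countable_range _))⟩, fun i hi => indicator_of_mem (.inl hi) _⟩
    · by_cases e : i ∈ A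
      exacts [(indicator_of_mem e x).symm ▸ hx.1 i, .inl (indicator_of_notMem e x)]
    · by_cases e : .inl t ∈ S
      · rw [indicator_of_mem (.inl e), indicator_of_mem (.inr (mem_biUnion e ⟨n, rfl⟩))]
        exact hx.2 t n
      · exact .inl (indicator_of_notMem (by simpa [A]) _)
  · rcases i with t | r
    · rcases x.2.1 (.inl t) with e | e <;> simp_all [T]
    · rcases x.2.1 (.inr r) with e | e <;> simp_all [T]
  · rintro _ ⟨x, rfl⟩
    refine k fun S hS => ⟨S.indicator (T x), ⟨⟨⟨T (S.indicator (T x)), ?_, fun t n => ?_⟩,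
      t2 (S.indicator (T x))⟩,
      fun ε e => hS.subset fun i hi => not_not.1 fun a => by
        simp [a, e.le.not_gt] at hi⟩, fun i hi => indicator_of_mem hi _⟩
    · rintro (t | r)
      · by_cases e : .inl t ∈ S <;> simp [T, e]
        simpa using x.2.1 _
      · by_cases e : .inr r ∈ S <;> simp [T, e]
        simpa using x.2.1 _
    · by_cases e : .inl t ∈ S <;> by_cases e' : .inr (t n) ∈ S <;> simp [T, e, e']
      exact x.2.2 t n
  · obtain ⟨n, hn⟩ : ∃ n, (Sum.inr ⁻¹' J n).Infinite := by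
      by_contra! e
      exact not_countable_univ (α := ℝ) ((countable_iUnion fun n => (e n).countable).mono
        fun r _ => by rw [← preimage_iUnion, hJ]; trivial)
    let t : ℕ → ℝ := fun m => hn.natEmbedding _ m
    obtain ⟨x, x1, x2⟩ := mem_closure_iff.1 (d (a := fun _ => 1) ⟨by simp, by simp⟩) _
      (isOpen_ne_fun (continuous_apply (Sum.inl t)) continuous_const) one_ne_zero
    refine ⟨n, x, x2, infinite_of_injective_forall_mem (f := fun m => Sum.inr (t m))
      (Sum.inr_injective.comp (Subtype.val_injective.comp (hn.natEmbedding _).injective))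
        fun m => ⟨(hn.natEmbedding _ m).2, ?_⟩⟩
    rw [((hD x2).1.2 t m).resolve_left x1]
    norm_num

end Pool.Agent.Results.MP_abc717_gt.Counter
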